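import Pool.Agent.helper82.UM.Spec

/-!
# Project UM (MP_2e0e07_nt), row PHI: the universal polynomial
-/

set_option autoImplicit false

namespace Pool.Agent.UM

open Matrix Polynomial Pool.Agent.GO Pool.Agent.AR Pool.Agent.RG Pool.Agent.HZ Pool.Agent.DS
  Pool.Agent.AX MeasureTheory NumberField

/-- the product of the quadratic polynomials -/
noncomputable def PHI_G {S : Type*} [CommRing S] {m : ℕ} (d : S) (x : Fin m → S) : S[X] :=
  ∏ ij : Fin m × Fin m, (C (x ij.1 * x ij.2) * X ^ 2 - C (d * (x ij.1 + x ij.2) ^ 2))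

theorem PHI_map {S S' : Type*} [CommRing S] [CommRing S'] (f : S →+* S') {m : ℕ} (d : S) (x : Fin m → S) :
    (PHI_G d x).map f = PHI_G (f d) (fun i => f (x i)) := by
  unfold PHI_G
  rw [Polynomial.map_prod]
  refine Finset.prod_congr rfl fun j _ => ?_
  simp only [Polynomial.map_sub, Polynomial.map_mul, Polynomial.map_C, Polynomial.map_pow, Polynomial.map_X,
    Polynomial.map_add, map_mul, map_pow, map_add]

theorem PHI_perm {S : Type*} [CommRing S] {m : ℕ} (d : S) (x : Fin m → S) (σ : Equiv.Perm (Fin m)) :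
    PHI_G d (fun i => x (σ i)) = PHI_G d x := by
  unfold PHI_G
  exact Fintype.prod_equiv (Equiv.prodCongr σ σ) _ _ fun j => rfl

theorem PHI_eval {S : Type*} [CommRing S] {m : ℕ} (d : S) (x : Fin m → S) (t : S) :
    (PHI_G d x).eval t = ∏ ij : Fin m × Fin m, (x ij.1 * x ij.2 * t ^ 2 - d * (x ij.1 + x ij.2) ^ 2) := by
  unfold PHI_G
  rw [Polynomial.eval_prod]
  refine Finset.prod_congr rfl fun j _ => ?_
  simp only [Polynomial.eval_sub, Polynomial.eval_mul, Polynomial.eval_C, Polynomial.eval_pow, Polynomial.eval_X]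

theorem PHI_two {F : Type*} [Field F] [IsAlgClosed F] (t δ : F) : ∃ α β : F, α + β = t ∧ α * β = δ := by
  have h1 : (X ^ 2 - C t * X + C δ : F[X]).degree ≠ 0 := by
    have h2 : (X ^ 2 - C t * X + C δ : F[X]) = C 1 * X ^ 2 + C (-t) * X + C δ := by
      rw [C_1, C_neg]
      ring
    rw [h2, Polynomial.degree_quadratic one_ne_zero]
    decide
  obtain ⟨α, hα⟩ := IsAlgClosed.exists_root _ h1
  refine ⟨α, t - α, by ring, ?_⟩
  rw [Polynomial.IsRoot, Polynomial.eval_add, Polynomial.eval_sub, Polynomial.eval_pow, Polynomial.eval_X,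
    Polynomial.eval_mul, Polynomial.eval_C, Polynomial.eval_X, Polynomial.eval_C] at hα
  linear_combination -hα

theorem PHI : PHI_stmt := by
  intro r n i₀
  classical
  let δ : MvPolynomial (Fin r × ℕ) ℤ := -MvPolynomial.X (i₀, 0)
  obtain ⟨Ψ, hΨ⟩ := sym_transfer.{0, 0} (E := MvPolynomial (Fin r × ℕ) ℤ) (∑ i, n i)
    (PHI_G (MvPolynomial.C δ) (fun i : Fin (∑ i, n i) =>
      (MvPolynomial.X i : MvPolynomial (Fin (∑ i, n i)) (MvPolynomial (Fin r × ℕ) ℤ)))) (by
      intro k σ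
      have h1 := PHI_map ((MvPolynomial.rename σ : MvPolynomial (Fin (∑ i, n i)) (MvPolynomial (Fin r × ℕ) ℤ) →ₐ[_] _) :
        MvPolynomial (Fin (∑ i, n i)) (MvPolynomial (Fin r × ℕ) ℤ) →+*
          MvPolynomial (Fin (∑ i, n i)) (MvPolynomial (Fin r × ℕ) ℤ)) (MvPolynomial.C δ)
        (fun i : Fin (∑ i, n i) => (MvPolynomial.X i : MvPolynomial (Fin (∑ i, n i)) (MvPolynomial (Fin r × ℕ) ℤ)))
      have h2 := congrArg (fun p : (MvPolynomial (Fin (∑ i, n i)) (MvPolynomial (Fin r × ℕ) ℤ))[X] => p.coeff k) h1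
      simp only [Polynomial.coeff_map, RingHom.coe_coe, MvPolynomial.rename_X, MvPolynomial.rename_C] at h2
      rw [h2, PHI_perm (MvPolynomial.C δ) (fun i : Fin (∑ i, n i) =>
        (MvPolynomial.X i : MvPolynomial (Fin (∑ i, n i)) (MvPolynomial (Fin r × ℕ) ℤ))) σ])
  refine ⟨Ψ.map (MvPolynomial.eval₂Hom (RingHom.id (MvPolynomial (Fin r × ℕ) ℤ)) (prodCoeff ℤ n)), ?_⟩
  intro F _ _ P δ' hP hi₀
  let ι : MvPolynomial (Fin r × ℕ) ℤ →+* F :=
    MvPolynomial.eval₂Hom (Int.castRingHom F) fun k : Fin r × ℕ => (P k.1).coeff k.2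
  have hιδ : ι δ = δ' := by
    simp only [ι, δ, map_neg, MvPolynomial.coe_eval₂Hom, MvPolynomial.eval₂_X]
    rw [hi₀]
    simp
  have hmonic : (∏ i, P i).Monic := monic_prod_of_monic _ _ fun i _ => (hP i).1
  have hdeg : (∏ i, P i).natDegree = ∑ i, n i := by
    rw [natDegree_prod_of_monic _ _ fun i _ => (hP i).1]
    exact Finset.sum_congr rfl fun i _ => (hP i).2
  obtain ⟨l, hl⟩ := exists_roots (∑ i, n i) (∏ i, P i) hmonic hdeg
  have key : (Ψ.map (MvPolynomial.eval₂Hom (RingHom.id (MvPolynomial (Fin r × ℕ) ℤ)) (prodCoeff ℤ n))).map ι =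
      PHI_G δ' l := by
    rw [Polynomial.map_map]
    have h1 : ι.comp (MvPolynomial.eval₂Hom (RingHom.id (MvPolynomial (Fin r × ℕ) ℤ)) (prodCoeff ℤ n)) =
        MvPolynomial.eval₂Hom ι fun k => (∏ i, (X - C (l i))).coeff k := by
      apply MvPolynomial.ringHom_ext
      · intro x
        simp
      · intro k
        simp only [RingHom.comp_apply, MvPolynomial.coe_eval₂Hom, MvPolynomial.eval₂_X]
        rw [← hl]
        exact prodCoeff_eval n k (Int.castRingHom F) P (fun i => (hP i).2.le)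
    rw [h1, hΨ ι l, PHI_map]
    simp only [MvPolynomial.coe_eval₂Hom, MvPolynomial.eval₂_X, MvPolynomial.eval₂_C]
    rw [hιδ]
  have hroot : ∀ x, (∏ i, P i).IsRoot x ↔ ∃ i, x = l i := by
    intro x
    rw [hl, Polynomial.IsRoot, Polynomial.eval_prod, Finset.prod_eq_zero_iff]
    constructor
    · rintro ⟨i, -, hi⟩
      rw [Polynomial.eval_sub, Polynomial.eval_X, Polynomial.eval_C, sub_eq_zero] at hi
      exact ⟨i, hi⟩
    · rintro ⟨i, hi⟩
      refine ⟨i, Finset.mem_univ i, ?_⟩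
      rw [Polynomial.eval_sub, Polynomial.eval_X, Polynomial.eval_C, hi, sub_self]
  refine ⟨fun t => ?_, fun h0 => ?_⟩
  · have hev : ev (Ψ.map (MvPolynomial.eval₂Hom (RingHom.id (MvPolynomial (Fin r × ℕ) ℤ)) (prodCoeff ℤ n))) P t =
        (PHI_G δ' l).eval t := by
      rw [← key]
      rfl
    rw [hev, PHI_eval, Finset.prod_eq_zero_iff]
    constructor
    · rintro ⟨⟨i, j⟩, -, hij⟩
      obtain ⟨α, β, hs, hp⟩ := PHI_two t δ'
      have h2 : (α * l j - β * l i) * (α * l i - β * l j) = 0 := by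
        rw [← hs, ← hp] at hij
        simp only at hij
        linear_combination hij
      rcases mul_eq_zero.mp h2 with h3 | h3
      · exact ⟨α, β, l i, l j, hs, hp, (hroot _).mpr ⟨i, rfl⟩, (hroot _).mpr ⟨j, rfl⟩, sub_eq_zero.mp h3⟩
      · exact ⟨α, β, l j, l i, hs, hp, (hroot _).mpr ⟨j, rfl⟩, (hroot _).mpr ⟨i, rfl⟩, sub_eq_zero.mp h3⟩
    · rintro ⟨α, β, x, y, hs, hp, hx, hy, hxy⟩
      obtain ⟨i, rfl⟩ := (hroot x).mp hx
      obtain ⟨j, rfl⟩ := (hroot y).mp hy
      refine ⟨(i, j), Finset.mem_univ _, ?_⟩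
      simp only
      rw [← hs, ← hp]
      linear_combination (α * l i - β * l j) * hxy
  · show (Ψ.map (MvPolynomial.eval₂Hom (RingHom.id (MvPolynomial (Fin r × ℕ) ℤ)) (prodCoeff ℤ n))).map ι ≠ 0
    rw [key]
    have hl0 : ∀ i, l i ≠ 0 := by
      intro i h1
      apply h0
      rw [Polynomial.coeff_zero_eq_eval_zero]
      exact (hroot 0).mpr ⟨i, h1.symm⟩
    unfold PHI_G
    rw [Finset.prod_ne_zero_iff]
    rintro ⟨i, j⟩ - h1
    have h2 := congrArg (fun p : F[X] => p.coeff 2) h1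
    simp only [Polynomial.coeff_sub, Polynomial.coeff_C_mul, Polynomial.coeff_X_pow, Polynomial.coeff_zero,
      Polynomial.coeff_C] at h2
    norm_num at h2
    rcases h2 with h3 | h3
    · exact hl0 i h3
    · exact hl0 j h3

end Pool.Agent.UM
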