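import Pool.Agent.helper82.UM.Spec

/-!
# Project UM (MP_2e0e07_nt), row RLN: the relation gives `IsRelation`
-/

set_option autoImplicit false

namespace Pool.Agent.UM

open Matrix Polynomial Pool.Agent.GO Pool.Agent.AR Pool.Agent.RG Pool.Agent.HZ Pool.Agent.DS
  Pool.Agent.AX MeasureTheory NumberField

theorem RLN_hom {r : ℕ} {E : Type} [Field E] (P : Fin r → ℤ[X]) :
    ((algebraMap (𝓞 E) E).comp (MvPolynomial.eval fun k : Fin r × ℕ =>
      ((P k.1).map (Int.castRingHom (𝓞 E))).coeff k.2)).comp (MvPolynomial.map (Int.castRingHom (𝓞 E))) =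
    (MvPolynomial.eval fun k : Fin r × ℕ => ((P k.1).map (Int.castRingHom E)).coeff k.2).comp
      (MvPolynomial.map (Int.castRingHom E)) := by
  apply MvPolynomial.ringHom_ext
  · intro x
    simp
  · intro k
    simp

theorem RLN_homF {r : ℕ} {E F : Type} [Field E] [Field F] (ι : E →+* F) (P : Fin r → ℤ[X]) :
    (ι.comp (MvPolynomial.eval fun k : Fin r × ℕ => ((P k.1).map (Int.castRingHom E)).coeff k.2)).comp
      (MvPolynomial.map (Int.castRingHom E)) =
    MvPolynomial.eval₂Hom (Int.castRingHom F) fun k : Fin r × ℕ => ((P k.1).map (Int.castRingHom F)).coeff k.2 := by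
  apply MvPolynomial.ringHom_ext
  · intro x
    simp
  · intro k
    simp

theorem RLN : RLN_stmt := by
  intro r n i₀ Φ hΦ Γ Place E _ _ _ _ _ _ μ _ frob hfr hd _ _ P Q T hT hi₀ F _ _ _ _ _ _ ι V ρ hR hval
  choose TV hTV hTV' using hR.compV
  set T' : Set Place := T ∪ ⋃ i, TV i with hT'
  have hTf : T'.Finite := hT.union (Set.finite_iUnion hTV)
  have hTi : ∀ v ∉ T', ∀ i, v ∉ TV i := fun v hv i h => hv (Or.inr (Set.mem_iUnion.2 ⟨i, h⟩))
  refine ⟨{v | v ∉ T'}, Φ.map (MvPolynomial.map (Int.castRingHom E)), ?_, ?_⟩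
  · intro C T'' hC hC0 hT''
    obtain ⟨v, -, hvT, s, hs, -, hsC⟩ := nonNeglOpen_of_dense μ frob hd ⊤ isOpen_univ C (T' ∪ T'') hC hC0
      (hTf.union hT'')
    rw [Set.mem_union, not_or] at hvT
    exact ⟨v, hvT.1, hvT.2, s, hs, hsC⟩
  · intro v hv
    have hvT : v ∉ T := fun h => hv (Or.inl h)
    obtain ⟨s, hs⟩ := hfr v
    have hch : ∀ i, (V i s).charpoly = (P i v).map (Int.castRingHom F) := by
      intro i
      have h1 := hTV' i v (hTi v hv i) s hs
      rw [h1, Polynomial.map_map]
      congr 1
      exact RingHom.ext_int _ _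
    have hmon : ∀ i, ((P i v).map (Int.castRingHom F)).Monic ∧ ((P i v).map (Int.castRingHom F)).natDegree = n i := by
      intro i
      rw [← hch i]
      exact ⟨Matrix.charpoly_monic _, by rw [Matrix.charpoly_natDegree_eq_dim, Fintype.card_fin]⟩
    have h0 : (∏ i, (P i v).map (Int.castRingHom F)).coeff 0 ≠ 0 := by
      intro h1
      have h3 := Matrix.det_eq_sign_charpoly_coeff (dirSum V s)
      have h2 : (dirSum V s).charpoly = ∏ i, (P i v).map (Int.castRingHom F) := by
        rw [charpoly_dirSum']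
        exact Finset.prod_congr rfl fun i _ => hch i
      rw [h2, h1, mul_zero] at h3
      have h4 : dirSum V s * dirSum V s⁻¹ = 1 := by rw [← map_mul, mul_inv_cancel, map_one]
      have h5 := congrArg Matrix.det h4
      rw [Matrix.det_mul, h3, zero_mul, Matrix.det_one] at h5
      exact zero_ne_one h5
    have hdet : (P i₀ v).map (Int.castRingHom F) = X - C (ι (algebraMap (𝓞 E) E ((Q v).coeff 0))) := by
      have h1 := congrArg (fun p : (𝓞 E)[X] => p.map (ι.comp (algebraMap (𝓞 E) E))) (hi₀ v)
      simp only [Polynomial.map_map, Polynomial.map_sub, Polynomial.map_X, Polynomial.map_C] at h1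
      have h2 : (ι.comp (algebraMap (𝓞 E) E)).comp (Int.castRingHom (𝓞 E)) = Int.castRingHom F := RingHom.ext_int _ _
      rw [h2] at h1
      exact h1
    have hPhi := (hΦ (fun i => (P i v).map (Int.castRingHom F)) _ hmon hdet).2 h0
    constructor
    · intro h1
      apply hPhi
      have h2 := congrArg (fun p : E[X] => p.map ι) h1
      simp only [Polynomial.map_map, Polynomial.map_zero] at h2
      rw [← RLN_homF ι (fun i => P i v)]
      exact h2
    · have h1 := hval v hvT
      have h2 := congrArg (algebraMap (𝓞 E) E) h1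
      rw [map_zero] at h2
      unfold val relVal PhiE at h2
      rw [Polynomial.IsRoot, Polynomial.eval_map] 
      rw [Polynomial.eval_map, Polynomial.hom_eval₂, Polynomial.eval₂_map, RLN_hom (fun i => P i v),
        ← Polynomial.eval₂_map] at h2
      rw [Polynomial.coeff_map, ← map_neg]
      exact h2

end Pool.Agent.UM
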